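import Pool.Agent.Y395.RK.Rank
import Pool.Agent.Y395.RS.Thm

set_option autoImplicit false

/-! Chromatic number and rank of random spanning subgraphs and of graphs with random flips. -/

namespace Pool.Agent.Y395.RK

open Finset Pool.Agent.Y395.RS

section

variable {V : Type} [Fintype V]

open Classical in
/-- the rank of the adjacency matrix -/
noncomputable def rk (G : SimpleGraph V) : ℕ := (G.adjMatrix ℝ).rank

/-- `M` is a matching of `D` -/
def IsM (D : SimpleGraph V) (M : Finset (Sym2 V)) : Prop :=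
  (∀ e ∈ M, e ∈ D.edgeSet) ∧ ∀ e ∈ M, ∀ e' ∈ M, ∀ v : V, v ∈ e → v ∈ e' → e = e'

theorem mem_ed' (G : SimpleGraph V) (e : Sym2 V) : e ∈ ed G ↔ e ∈ G.edgeSet := by
  induction e with
  | _ x y => rw [mem_ed, SimpleGraph.mem_edgeSet]

theorem rk_fl (H0 D : SimpleGraph V) (F : Finset (Sym2 V)) (hF : F ⊆ ed D) :
    rk (symmDiff H0 (gr F)) = (fl H0 F).rank := by
  classical
  unfold rk
  congr 1
  ext x y
  rw [SimpleGraph.adjMatrix_apply]
  unfold fl
  have h : (symmDiff H0 (gr F)).Adj x y ↔ (H0.Adj x y ↔ s(x, y) ∉ F) := by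
    rw [symmDiff_def, SimpleGraph.sup_adj, SimpleGraph.sdiff_adj, SimpleGraph.sdiff_adj,
      gr_adj_of hF]
    tauto
  by_cases h1 : (symmDiff H0 (gr F)).Adj x y
  · rw [if_pos h1, if_pos (h.1 h1)]
  · rw [if_neg h1, if_neg (fun h2 => h1 (h.2 h2))]

/-- anti-concentration of the rank -/
theorem flip_bound (H0 D : SimpleGraph V) (M : Finset (Sym2 V)) (hM : IsM D M) :
    (({F : SimpleGraph V | F ≤ D ∧ 4 * rk (symmDiff H0 F) < M.card}.ncard : ℕ) : ℝ) ≤
      (2 : ℝ) ^ (-((M.card : ℝ) / 6)) * (({F : SimpleGraph V | F ≤ D}.ncard : ℕ) : ℝ) := by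
  classical
  rw [ncard_sub D (fun F => 4 * rk (symmDiff H0 F) < M.card)]
  have e : (({H : SimpleGraph V | H ≤ D}.ncard : ℕ) : ℝ) = 2 ^ (ed D).card := by
    rw [← cnt_true, ← ncard_sub D (fun _ => True)]
    congr 2
    ext H
    simp
  rw [e]
  refine le_trans (cnt_mono fun F hF h => ?_)
    (rank_bound H0 (ed D) M (fun e he => (mem_ed' D e).2 (hM.1 e he))
      (fun e he => D.not_isDiag_of_mem_edgeSet (hM.1 e he)) hM.2)
  rw [← rk_fl H0 D F hF]
  exact h

/-- a maximal matching gives a colouring -/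
theorem exists_matching (G : SimpleGraph V) :
    ∃ M : Finset (Sym2 V), IsM G M ∧ G.Colorable (2 * M.card + 1) := by
  classical
  have hne : (univ.filter (fun M : Finset (Sym2 V) => IsM G M)).Nonempty :=
    ⟨∅, mem_filter.2 ⟨mem_univ _, by simp [IsM]⟩⟩
  obtain ⟨M, hM, hmax⟩ := exists_max_image _ card hne
  have hM' : IsM G M := (mem_filter.1 hM).2
  refine ⟨M, hM', ?_⟩
  set W : Finset V := M.biUnion (fun e => univ.filter (fun v => v ∈ e)) with hW
  have hWc : W.card ≤ 2 * M.card := by
    refine card_biUnion_le.trans ?_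
    calc ∑ e ∈ M, (univ.filter (fun v => v ∈ e)).card ≤ ∑ _e ∈ M, 2 := by
          apply sum_le_sum
          intro e _
          induction e with
          | _ a b =>
            have hs : univ.filter (fun x => x ∈ s(a, b)) ⊆ {a, b} := by
              intro x hx
              rw [mem_insert, mem_singleton]
              exact Sym2.mem_iff.1 (mem_filter.1 hx).2
            exact (card_le_card hs).trans card_le_two
      _ = 2 * M.card := by rw [sum_const, smul_eq_mul, mul_comm]
  have hWm : ∀ v, v ∉ W → ∀ e ∈ M, v ∉ e := by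
    intro v hv e he hve
    exact hv (mem_biUnion.2 ⟨e, he, mem_filter.2 ⟨mem_univ _, hve⟩⟩)
  have hind : ∀ x y, x ∉ W → y ∉ W → ¬ G.Adj x y := by
    intro x y hx hy hxy
    have h1 : s(x, y) ∉ M := fun h => hWm x hx _ h (Sym2.mem_mk_left _ _)
    have h2 : IsM G (insert s(x, y) M) := by
      have hcross : ∀ e ∈ M, ∀ v : V, v ∈ s(x, y) → v ∉ e := by
        intro e he v hv
        rcases Sym2.mem_iff.1 hv with rfl | rfl
        · exact hWm _ hx e he
        · exact hWm _ hy e he
      refine ⟨?_, ?_⟩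
      · intro e he
        rcases mem_insert.1 he with rfl | he
        · exact hxy
        · exact hM'.1 e he
      · intro e he e' he' v hv hv'
        rcases mem_insert.1 he with h | h
        · rcases mem_insert.1 he' with h' | h'
          · rw [h, h']
          · rw [h] at hv
            exact absurd hv' (hcross e' h' v hv)
        · rcases mem_insert.1 he' with h' | h'
          · rw [h'] at hv'
            exact absurd hv (hcross e h v hv')
          · exact hM'.2 e h e' h' v hv hv'
    have h3 := hmax _ (mem_filter.2 ⟨mem_univ _, h2⟩)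
    rw [card_insert_of_notMem h1] at h3
    omega
  let C : G.Coloring (Option W) := SimpleGraph.Coloring.mk
    (fun v => if h : v ∈ W then some ⟨v, h⟩ else none) (by
      intro x y hxy heq
      by_cases hx : x ∈ W
      · by_cases hy : y ∈ W
        · simp only [hx, hy, dif_pos, Option.some.injEq, Subtype.mk.injEq] at heq
          exact hxy.ne heq
        · simp [hx, hy] at heq
      · by_cases hy : y ∈ W
        · simp [hx, hy] at heq
        · exact hind x y hx hy hxy)
  have hcol := C.colorable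
  rw [Fintype.card_option, Fintype.card_coe] at hcol
  exact hcol.mono (by omega)

theorem chi_le {G : SimpleGraph V} {k : ℕ} (h : G.Colorable k) :
    G.chromaticNumber.toNat ≤ k :=
  ENat.toNat_le_of_le_coe h.chromaticNumber_le

theorem chi_mono {G H : SimpleGraph V} (h : H ≤ G) :
    H.chromaticNumber.toNat ≤ G.chromaticNumber.toNat := by
  have hG : G.chromaticNumber ≠ ⊤ :=
    SimpleGraph.chromaticNumber_ne_top_iff_exists.2 ⟨_, G.colorable_of_fintype⟩
  exact ENat.toNat_le_toNat (SimpleGraph.chromaticNumber_mono G h) hG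

/-- the bound in terms of the chromatic number of the host graph -/
theorem host_bound (G : SimpleGraph V) :
    (({H : SimpleGraph V | H ≤ G ∧ 8 * rk H + 1 < G.chromaticNumber.toNat}.ncard : ℕ) : ℝ) ≤
      (2 : ℝ) ^ (-(((G.chromaticNumber.toNat : ℝ) - 1) / 12)) *
        (({H : SimpleGraph V | H ≤ G}.ncard : ℕ) : ℝ) := by
  classical
  obtain ⟨M, hM, hc⟩ := exists_matching G
  have hχ := chi_le hc
  have h1 := flip_bound (⊥ : SimpleGraph V) G M hM
  have h2 : {H : SimpleGraph V | H ≤ G ∧ 8 * rk H + 1 < G.chromaticNumber.toNat}.ncard ≤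
      {F : SimpleGraph V | F ≤ G ∧ 4 * rk (symmDiff ⊥ F) < M.card}.ncard := by
    apply Set.ncard_le_ncard _ (Set.toFinite _)
    rintro H ⟨h3, h4⟩
    refine ⟨h3, ?_⟩
    rw [bot_symmDiff]
    omega
  have h2' : (({H : SimpleGraph V | H ≤ G ∧ 8 * rk H + 1 <
      G.chromaticNumber.toNat}.ncard : ℕ) : ℝ) ≤
      (({F : SimpleGraph V | F ≤ G ∧ 4 * rk (symmDiff ⊥ F) < M.card}.ncard : ℕ) : ℝ) :=
    Nat.cast_le.2 h2
  refine h2'.trans (h1.trans (mul_le_mul_of_nonneg_right ?_ (Nat.cast_nonneg _)))
  apply Real.rpow_le_rpow_of_exponent_le (by norm_num)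
  have : (G.chromaticNumber.toNat : ℝ) ≤ 2 * M.card + 1 := by exact_mod_cast hχ
  linarith

theorem rk_zero (H : SimpleGraph V) (h : rk H = 0) : H.chromaticNumber.toNat ≤ 1 := by
  classical
  unfold rk Matrix.rank at h
  have hr : LinearMap.range (H.adjMatrix ℝ).mulVecLin = ⊥ := Submodule.finrank_eq_zero.1 h
  have hl : (H.adjMatrix ℝ).mulVecLin = 0 := LinearMap.range_eq_bot.1 hr
  have hH : H = ⊥ := by
    ext x y
    have h1 : H.adjMatrix ℝ x y = 0 := by
      have h2 := congrFun (congrArg (fun f => f (Pi.single y 1)) hl) x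
      simpa using h2
    rw [SimpleGraph.adjMatrix_apply] at h1
    constructor
    · intro hxy
      rw [if_pos hxy] at h1
      exact absurd h1 one_ne_zero
    · intro hxy
      exact absurd hxy (by simp)
  apply chi_le
  rw [hH]
  exact ⟨SimpleGraph.Coloring.mk (fun _ => 0) (by intro x y hxy; exact absurd hxy (by simp))⟩

/-- the bound for all but a proportion `ε` of the spanning subgraphs -/
theorem eps_bound (ε : ℝ) (hε : 0 < ε) : ∃ C : ℝ, ∀ (V : Type) [Fintype V] (G : SimpleGraph V),
    (({H : SimpleGraph V | H ≤ G ∧ ¬ (Real.log (H.chromaticNumber.toNat : ℝ) ≤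
        Real.log (rk H : ℝ) + C)}.ncard : ℕ) : ℝ) ≤
      ε * (({H : SimpleGraph V | H ≤ G}.ncard : ℕ) : ℝ) := by
  -- `K` with `2 ^ (-(K - 1) / 12) ≤ ε`
  obtain ⟨j, hj⟩ := exists_pow_lt_of_lt_one hε (by norm_num : (1 / 2 : ℝ) < 1)
  set K : ℕ := 12 * j + 1 with hK
  refine ⟨Real.log (K : ℝ) + Real.log 9, fun V _ G => ?_⟩
  classical
  have hK1 : (1 : ℝ) ≤ K := by rw [hK]; push_cast; linarith [(Nat.cast_nonneg j : (0 : ℝ) ≤ j)]
  have hlK : 0 ≤ Real.log (K : ℝ) := Real.log_nonneg hK1
  have hl9 : 0 ≤ Real.log (9 : ℝ) := Real.log_nonneg (by norm_num)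
  have logle : ∀ (H : SimpleGraph V) (m : ℕ), 1 ≤ m → H.chromaticNumber.toNat ≤ m →
      Real.log (H.chromaticNumber.toNat : ℝ) ≤ Real.log (m : ℝ) := by
    intro H m hm h
    rcases Nat.eq_zero_or_pos H.chromaticNumber.toNat with h0 | h0
    · rw [h0, Nat.cast_zero, Real.log_zero]
      exact Real.log_nonneg (by exact_mod_cast hm)
    · exact Real.log_le_log (by exact_mod_cast h0) (by exact_mod_cast h)
  by_cases hχ : G.chromaticNumber.toNat ≤ K
  · -- no exception
    have hempty : {H : SimpleGraph V | H ≤ G ∧ ¬ (Real.log (H.chromaticNumber.toNat : ℝ) ≤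
        Real.log (rk H : ℝ) + (Real.log (K : ℝ) + Real.log 9))} = ∅ := by
      ext H
      simp only [Set.mem_ofPred_eq, Set.mem_empty_iff_false, iff_false, not_and, not_not]
      intro hH
      have h1 := logle H K (by omega) ((chi_mono hH).trans hχ)
      have h2 : 0 ≤ Real.log (rk H : ℝ) := by
        rcases Nat.eq_zero_or_pos (rk H) with h0 | h0
        · rw [h0, Nat.cast_zero, Real.log_zero]
        · exact Real.log_nonneg (by exact_mod_cast h0)
      linarith
    rw [hempty, Set.ncard_empty, Nat.cast_zero]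
    positivity
  · push Not at hχ
    have h1 := host_bound G
    have h2 : {H : SimpleGraph V | H ≤ G ∧ ¬ (Real.log (H.chromaticNumber.toNat : ℝ) ≤
        Real.log (rk H : ℝ) + (Real.log (K : ℝ) + Real.log 9))}.ncard ≤
        {H : SimpleGraph V | H ≤ G ∧ 8 * rk H + 1 < G.chromaticNumber.toNat}.ncard := by
      apply Set.ncard_le_ncard _ (Set.toFinite _)
      rintro H ⟨h3, h4⟩
      refine ⟨h3, ?_⟩
      by_contra hc
      push Not at hc
      apply h4
      rcases Nat.eq_zero_or_pos (rk H) with h0 | h0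
      · have h5 := rk_zero H h0
        have h6 := logle H 1 le_rfl h5
        rw [Nat.cast_one, Real.log_one] at h6
        rw [h0, Nat.cast_zero, Real.log_zero]
        linarith
      · have h5 : H.chromaticNumber.toNat ≤ 9 * rk H := by
          have := chi_mono h3
          omega
        have h6 := logle H (9 * rk H) (by omega) h5
        have h7 : Real.log ((9 * rk H : ℕ) : ℝ) = Real.log 9 + Real.log (rk H : ℝ) := by
          push_cast
          rw [Real.log_mul (by norm_num) (by
            have : (0 : ℝ) < (rk H : ℝ) := by exact_mod_cast h0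
            exact this.ne')]
        linarith
    have h2' : (({H : SimpleGraph V | H ≤ G ∧ ¬ (Real.log (H.chromaticNumber.toNat : ℝ) ≤
        Real.log (rk H : ℝ) + (Real.log (K : ℝ) + Real.log 9))}.ncard : ℕ) : ℝ) ≤
        (({H : SimpleGraph V | H ≤ G ∧ 8 * rk H + 1 <
          G.chromaticNumber.toNat}.ncard : ℕ) : ℝ) := Nat.cast_le.2 h2
    refine h2'.trans (h1.trans (mul_le_mul_of_nonneg_right ?_ (Nat.cast_nonneg _)))
    have h8 : (2 : ℝ) ^ (-(((G.chromaticNumber.toNat : ℝ) - 1) / 12)) ≤ (2 : ℝ) ^ (-(j : ℝ)) := by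
      apply Real.rpow_le_rpow_of_exponent_le (by norm_num)
      have : ((12 * j + 1 : ℕ) : ℝ) ≤ (G.chromaticNumber.toNat : ℝ) := by
        exact_mod_cast hχ.le
      push_cast at this
      linarith
    refine h8.trans ?_
    rw [Real.rpow_neg (by norm_num), Real.rpow_natCast]
    rw [one_div, inv_pow] at hj
    exact hj.le

/-- smoothed analysis -/
theorem smooth_bound (δ : ℝ) (hδ : 0 < δ) (H0 D : SimpleGraph V) (M : Finset (Sym2 V))
    (hM : IsM D M) (hn : (Fintype.card V : ℝ) ^ δ ≤ M.card) :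
    (({F : SimpleGraph V | F ≤ D ∧
        ¬ (Real.log ((symmDiff H0 F).chromaticNumber.toNat : ℝ) ≤
          1 / δ * (Real.log (rk (symmDiff H0 F) : ℝ) + Real.log 4))}.ncard : ℕ) : ℝ) ≤
      (2 : ℝ) ^ (-((M.card : ℝ) / 6)) * (({F : SimpleGraph V | F ≤ D}.ncard : ℕ) : ℝ) := by
  classical
  have h1 := flip_bound H0 D M hM
  have h2 : {F : SimpleGraph V | F ≤ D ∧
        ¬ (Real.log ((symmDiff H0 F).chromaticNumber.toNat : ℝ) ≤
          1 / δ * (Real.log (rk (symmDiff H0 F) : ℝ) + Real.log 4))}.ncard ≤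
      {F : SimpleGraph V | F ≤ D ∧ 4 * rk (symmDiff H0 F) < M.card}.ncard := by
    apply Set.ncard_le_ncard _ (Set.toFinite _)
    rintro F ⟨h3, h4⟩
    refine ⟨h3, ?_⟩
    by_contra hc
    push Not at hc
    apply h4
    have hl4 : 0 < Real.log (4 : ℝ) := Real.log_pos (by norm_num)
    rcases Nat.eq_zero_or_pos (Fintype.card V) with h0 | h0
    · have h5 : (symmDiff H0 F).chromaticNumber.toNat ≤ Fintype.card V :=
        chi_le (symmDiff H0 F).colorable_of_fintype
      have h6 : (symmDiff H0 F).chromaticNumber.toNat = 0 := by omega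
      rw [h6, Nat.cast_zero, Real.log_zero]
      have h7 : 0 ≤ Real.log (rk (symmDiff H0 F) : ℝ) := by
        rcases Nat.eq_zero_or_pos (rk (symmDiff H0 F)) with h0 | h0
        · rw [h0, Nat.cast_zero, Real.log_zero]
        · exact Real.log_nonneg (by exact_mod_cast h0)
      positivity
    · have hn0 : (0 : ℝ) < Fintype.card V := by exact_mod_cast h0
      have hMpos : (0 : ℝ) < M.card := lt_of_lt_of_le (Real.rpow_pos_of_pos hn0 δ) hn
      have hMr : (M.card : ℝ) ≤ 4 * (rk (symmDiff H0 F) : ℝ) := by exact_mod_cast hc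
      have hr0 : (0 : ℝ) < (rk (symmDiff H0 F) : ℝ) := by linarith
      have h5 : δ * Real.log (Fintype.card V) ≤
          Real.log (rk (symmDiff H0 F) : ℝ) + Real.log 4 := by
        rw [← Real.log_rpow hn0, add_comm, ← Real.log_mul (by norm_num) hr0.ne']
        exact Real.log_le_log (Real.rpow_pos_of_pos hn0 δ) (hn.trans hMr)
      have h6 : Real.log ((symmDiff H0 F).chromaticNumber.toNat : ℝ) ≤
          Real.log (Fintype.card V) := by
        have h7 : (symmDiff H0 F).chromaticNumber.toNat ≤ Fintype.card V :=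
          chi_le (symmDiff H0 F).colorable_of_fintype
        rcases Nat.eq_zero_or_pos (symmDiff H0 F).chromaticNumber.toNat with h8 | h8
        · rw [h8, Nat.cast_zero, Real.log_zero]
          exact Real.log_nonneg (by exact_mod_cast h0)
        · exact Real.log_le_log (by exact_mod_cast h8) (by exact_mod_cast h7)
      refine h6.trans ?_
      rw [one_div, inv_mul_eq_div, le_div_iff₀ hδ, mul_comm]
      exact h5
  have h2' := (Nat.cast_le (α := ℝ)).2 h2
  exact h2'.trans h1

end

end Pool.Agent.Y395.RK
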