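import Pool.Agent.Y395.RK.Fin

set_option autoImplicit false

/-! Random perturbations of an arbitrary graph along an arbitrary graph. -/

namespace Pool.Agent.Y395.RK

open Finset Pool.Agent.Y395.RS

section

variable {V : Type} [Fintype V]

/-- a matrix supported on few rows and columns has small rank -/
theorem rank_cover (A : Matrix V V ℝ) (W : Finset V)
    (h : ∀ x y, x ∉ W → y ∉ W → A x y = 0) : A.rank ≤ 2 * W.card := by
  classical
  let w : V → ℝ := fun v => if v ∈ W then 1 else 0
  have hw : ((Matrix.diagonal w : Matrix V V ℝ)).rank ≤ W.card := by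
    rw [Matrix.rank_diagonal]
    rw [← Fintype.card_coe]
    apply Fintype.card_le_of_injective (fun i : {i // w i ≠ 0} => (⟨i.1, by
      by_contra hi
      exact i.2 (if_neg hi)⟩ : W))
    intro a b hab
    exact Subtype.ext (congrArg (fun z : W => z.1) hab)
  have hA : A = (Matrix.diagonal w) * A -
      ((Matrix.diagonal w - 1) * A) * Matrix.diagonal w := by
    ext x y
    rw [Matrix.sub_apply, Matrix.mul_diagonal, Matrix.sub_mul, Matrix.one_mul, Matrix.sub_apply,
      Matrix.diagonal_mul]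
    by_cases hx : x ∈ W
    · have h1 : w x = 1 := if_pos hx
      rw [h1]
      ring
    · have h1 : w x = 0 := if_neg hx
      by_cases hy : y ∈ W
      · have h2 : w y = 1 := if_pos hy
        rw [h1, h2]
        ring
      · rw [h x y hx hy]
        ring
  calc A.rank = ((Matrix.diagonal w) * A -
      ((Matrix.diagonal w - 1) * A) * Matrix.diagonal w).rank := by rw [← hA]
    _ ≤ ((Matrix.diagonal w) * A).rank +
      (((Matrix.diagonal w - 1) * A) * Matrix.diagonal w).rank := rank_sub_le' _ _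
    _ ≤ W.card + W.card := add_le_add ((Matrix.rank_mul_le_left _ _).trans hw)
        ((Matrix.rank_mul_le_right _ _).trans hw)
    _ = 2 * W.card := by ring

/-- a maximal matching and the set of its vertices -/
theorem exists_cover (G : SimpleGraph V) :
    ∃ (M : Finset (Sym2 V)) (W : Finset V), IsM G M ∧ W.card ≤ 2 * M.card ∧
      ∀ x y, x ∉ W → y ∉ W → ¬ G.Adj x y := by
  classical
  have hne : (univ.filter (fun M : Finset (Sym2 V) => IsM G M)).Nonempty :=
    ⟨∅, mem_filter.2 ⟨mem_univ _, by simp [IsM]⟩⟩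
  obtain ⟨M, hM, hmax⟩ := exists_max_image _ card hne
  have hM' : IsM G M := (mem_filter.1 hM).2
  set W : Finset V := M.biUnion (fun e => univ.filter (fun v => v ∈ e)) with hW
  have hWc : W.card ≤ 2 * M.card := by
    refine card_biUnion_le.trans ?_
    calc ∑ e ∈ M, (univ.filter (fun v => v ∈ e)).card ≤ ∑ _e ∈ M, 2 := by
          apply sum_le_sum
          intro e _
          induction e with
          | _ a b =>
            have hs : univ.filter (fun x => x ∈ s(a, b)) ⊆ {a, b} := by
              intro x hx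
              rw [mem_insert, mem_singleton]
              exact Sym2.mem_iff.1 (mem_filter.1 hx).2
            exact (card_le_card hs).trans card_le_two
      _ = 2 * M.card := by rw [sum_const, smul_eq_mul, mul_comm]
  have hWm : ∀ v, v ∉ W → ∀ e ∈ M, v ∉ e := by
    intro v hv e he hve
    exact hv (mem_biUnion.2 ⟨e, he, mem_filter.2 ⟨mem_univ _, hve⟩⟩)
  refine ⟨M, W, hM', hWc, ?_⟩
  intro x y hx hy hxy
  have h1 : s(x, y) ∉ M := fun h => hWm x hx _ h (Sym2.mem_mk_left _ _)
  have h2 : IsM G (insert s(x, y) M) := by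
    have hcross : ∀ e ∈ M, ∀ v : V, v ∈ s(x, y) → v ∉ e := by
      intro e he v hv
      rcases Sym2.mem_iff.1 hv with rfl | rfl
      · exact hWm _ hx e he
      · exact hWm _ hy e he
    refine ⟨?_, ?_⟩
    · intro e he
      rcases mem_insert.1 he with rfl | he
      · exact hxy
      · exact hM'.1 e he
    · intro e he e' he' v hv hv'
      rcases mem_insert.1 he with h | h
      · rcases mem_insert.1 he' with h' | h'
        · rw [h, h']
        · rw [h] at hv
          exact absurd hv' (hcross e' h' v hv)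
      · rcases mem_insert.1 he' with h' | h'
        · rw [h'] at hv'
          exact absurd hv (hcross e h v hv')
        · exact hM'.2 e h e' h' v hv hv'
  have h3 := hmax _ (mem_filter.2 ⟨mem_univ _, h2⟩)
  rw [card_insert_of_notMem h1] at h3
  omega

theorem pert_rank (H0 D F : SimpleGraph V) (hF : F ≤ D) (W : Finset V)
    (hW : ∀ x y, x ∉ W → y ∉ W → ¬ D.Adj x y) :
    rk H0 ≤ rk (symmDiff H0 F) + 2 * W.card := by
  classical
  unfold rk
  have h1 : ∀ x y, x ∉ W → y ∉ W →
      ((symmDiff H0 F).adjMatrix ℝ - H0.adjMatrix ℝ) x y = 0 := by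
    intro x y hx hy
    have h2 : ¬ F.Adj x y := fun h => hW x y hx hy (hF h)
    have h3 : (symmDiff H0 F).Adj x y ↔ H0.Adj x y := by
      rw [symmDiff_def, SimpleGraph.sup_adj, SimpleGraph.sdiff_adj, SimpleGraph.sdiff_adj]
      tauto
    rw [Matrix.sub_apply, SimpleGraph.adjMatrix_apply, SimpleGraph.adjMatrix_apply]
    by_cases h4 : H0.Adj x y
    · rw [if_pos h4, if_pos (h3.2 h4), sub_self]
    · rw [if_neg h4, if_neg (fun h5 => h4 (h3.1 h5)), sub_self]
  have h2 := rank_cover _ W h1
  have h3 := rank_sub_le' ((symmDiff H0 F).adjMatrix ℝ)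
    ((symmDiff H0 F).adjMatrix ℝ - H0.adjMatrix ℝ)
  rw [sub_sub_cancel] at h3
  omega

theorem pert_col (H0 D F : SimpleGraph V) (hF : F ≤ D) (W : Finset V)
    (hW : ∀ x y, x ∉ W → y ∉ W → ¬ D.Adj x y) {k : ℕ} (hk : H0.Colorable k) :
    (symmDiff H0 F).Colorable (k + W.card) := by
  classical
  obtain ⟨c⟩ := hk
  let C : (symmDiff H0 F).Coloring (Fin k ⊕ W) := SimpleGraph.Coloring.mk
    (fun v => if h : v ∈ W then Sum.inr ⟨v, h⟩ else Sum.inl (c v)) (by
      intro x y hxy heq
      by_cases hx : x ∈ W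
      · by_cases hy : y ∈ W
        · simp only [hx, hy, dif_pos, Sum.inr.injEq, Subtype.mk.injEq] at heq
          exact hxy.ne heq
        · simp [hx, hy] at heq
      · by_cases hy : y ∈ W
        · simp [hx, hy] at heq
        · simp only [hx, hy, dif_neg, not_false_eq_true, Sum.inl.injEq] at heq
          have h2 : ¬ F.Adj x y := fun h => hW x y hx hy (hF h)
          have h3 : H0.Adj x y := by
            rw [symmDiff_def, SimpleGraph.sup_adj, SimpleGraph.sdiff_adj,
              SimpleGraph.sdiff_adj] at hxy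
            tauto
          exact c.valid h3 heq)
  have hcol := C.colorable
  rw [Fintype.card_sum, Fintype.card_fin, Fintype.card_coe] at hcol
  exact hcol

/-- the chromatic number as a natural number -/
noncomputable def chi (G : SimpleGraph V) : ℕ := G.chromaticNumber.toNat

theorem col_chi (G : SimpleGraph V) : G.Colorable (chi G) :=
  SimpleGraph.colorable_chromaticNumber G.colorable_of_fintype

theorem pert_chi (H0 D F : SimpleGraph V) (hF : F ≤ D) (W : Finset V)
    (hW : ∀ x y, x ∉ W → y ∉ W → ¬ D.Adj x y) :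
    chi (symmDiff H0 F) ≤ chi H0 + W.card :=
  chi_le (pert_col H0 D F hF W hW (col_chi H0))

end

theorem lmono {a b : ℕ} (h : a ≤ b) : Real.log (a : ℝ) ≤ Real.log (b : ℝ) := by
  rcases Nat.eq_zero_or_pos a with h0 | h0
  · rw [h0, Nat.cast_zero, Real.log_zero]
    exact Real.log_natCast_nonneg b
  · exact Real.log_le_log (by exact_mod_cast h0) (by exact_mod_cast h)

theorem lmul (a b : ℕ) : Real.log ((a * b : ℕ) : ℝ) ≤ Real.log (a : ℝ) + Real.log (b : ℝ) := by
  rcases Nat.eq_zero_or_pos a with h0 | h0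
  · rw [h0, Nat.zero_mul, Nat.cast_zero, Real.log_zero, zero_add]
    exact Real.log_natCast_nonneg b
  · rcases Nat.eq_zero_or_pos b with h1 | h1
    · rw [h1, Nat.mul_zero, Nat.cast_zero, Real.log_zero, add_zero]
      exact Real.log_natCast_nonneg a
    · rw [Nat.cast_mul, Real.log_mul (by positivity) (by positivity)]

theorem lmax1 (a : ℕ) : Real.log ((max a 1 : ℕ) : ℝ) = Real.log (a : ℝ) := by
  rcases Nat.eq_zero_or_pos a with h0 | h0
  · rw [h0]; simp
  · rw [max_eq_left h0]

/-- `a ≤ b + K` gives `log a ≤ log b + log (1 + K)` -/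
theorem ladd {a b K : ℕ} (h : a ≤ b + K) :
    Real.log (a : ℝ) ≤ Real.log (b : ℝ) + Real.log ((1 + K : ℕ) : ℝ) := by
  have h1 : a ≤ (max b 1) * (1 + K) := by
    have h2 : 1 ≤ max b 1 := le_max_right _ _
    have h3 : b ≤ max b 1 := le_max_left _ _
    nlinarith [Nat.zero_le K]
  refine (lmono h1).trans ((lmul _ _).trans ?_)
  rw [lmax1]

/-- the random perturbations of a graph along a graph -/
theorem pert_bound (ε : ℝ) (hε : 0 < ε) : ∃ C : ℝ, 0 ≤ C ∧
    ∀ (V : Type) [Fintype V] (H0 D : SimpleGraph V),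
    (({F : SimpleGraph V | F ≤ D ∧ ¬ (
        Real.log (chi (symmDiff H0 F) : ℝ) ≤
          max (Real.log (chi H0 : ℝ)) (Real.log (rk (symmDiff H0 F) : ℝ)) + C ∧
        Real.log (rk H0 : ℝ) ≤ Real.log (rk (symmDiff H0 F) : ℝ) + C)}.ncard : ℕ) : ℝ) ≤
      ε * (({F : SimpleGraph V | F ≤ D}.ncard : ℕ) : ℝ) := by
  obtain ⟨j, hj⟩ := exists_pow_lt_of_lt_one hε (by norm_num : (1 / 2 : ℝ) < 1)
  set K : ℕ := 6 * j with hK
  set C : ℝ := Real.log ((1 + 4 * K : ℕ) : ℝ) + Real.log ((17 : ℕ) : ℝ) with hC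
  have hC1 : 0 ≤ Real.log ((1 + 4 * K : ℕ) : ℝ) := Real.log_natCast_nonneg _
  have hC2 : 0 ≤ Real.log ((17 : ℕ) : ℝ) := Real.log_natCast_nonneg _
  refine ⟨C, by positivity, fun V _ H0 D => ?_⟩
  classical
  obtain ⟨M, W, hM, hWc, hW⟩ := exists_cover D
  by_cases hMK : M.card ≤ K
  · have hempty : {F : SimpleGraph V | F ≤ D ∧ ¬ (
        Real.log (chi (symmDiff H0 F) : ℝ) ≤
          max (Real.log (chi H0 : ℝ)) (Real.log (rk (symmDiff H0 F) : ℝ)) + C ∧
        Real.log (rk H0 : ℝ) ≤ Real.log (rk (symmDiff H0 F) : ℝ) + C)} = ∅ := by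
      rw [Set.eq_empty_iff_forall_notMem]
      rintro F ⟨hF, hn⟩
      apply hn
      constructor
      · have h1 : chi (symmDiff H0 F) ≤ chi H0 + 4 * K :=
          (pert_chi H0 D F hF W hW).trans (by omega)
        have h2 := ladd h1
        have h3 := le_max_left (Real.log (chi H0 : ℝ)) (Real.log (rk (symmDiff H0 F) : ℝ))
        linarith
      · have h1 : rk H0 ≤ rk (symmDiff H0 F) + 4 * K :=
          (pert_rank H0 D F hF W hW).trans (by omega)
        have h2 := ladd h1
        linarith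
    rw [hempty, Set.ncard_empty, Nat.cast_zero]
    positivity
  · push Not at hMK
    have h1 := flip_bound H0 D M hM
    have h2 : {F : SimpleGraph V | F ≤ D ∧ ¬ (
        Real.log (chi (symmDiff H0 F) : ℝ) ≤
          max (Real.log (chi H0 : ℝ)) (Real.log (rk (symmDiff H0 F) : ℝ)) + C ∧
        Real.log (rk H0 : ℝ) ≤ Real.log (rk (symmDiff H0 F) : ℝ) + C)}.ncard ≤
        {F : SimpleGraph V | F ≤ D ∧ 4 * rk (symmDiff H0 F) < M.card}.ncard := by
      apply Set.ncard_le_ncard _ (Set.toFinite _)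
      rintro F ⟨hF, h4⟩
      refine ⟨hF, ?_⟩
      by_contra hc
      push Not at hc
      apply h4
      constructor
      · have h5 : chi (symmDiff H0 F) ≤ max (chi H0) (rk (symmDiff H0 F)) * 17 := by
          have h6 := pert_chi H0 D F hF W hW
          have h7 := le_max_left (chi H0) (rk (symmDiff H0 F))
          have h8 := le_max_right (chi H0) (rk (symmDiff H0 F))
          omega
        have h6 := (lmono h5).trans (lmul _ _)
        have h7 : Real.log ((max (chi H0) (rk (symmDiff H0 F)) : ℕ) : ℝ) ≤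
            max (Real.log (chi H0 : ℝ)) (Real.log (rk (symmDiff H0 F) : ℝ)) := by
          rcases le_total (chi H0) (rk (symmDiff H0 F)) with h | h
          · rw [max_eq_right h]
            exact le_max_right _ _
          · rw [max_eq_left h]
            exact le_max_left _ _
        linarith
      · have h5 : rk H0 ≤ rk (symmDiff H0 F) * 17 := by
          have h6 := pert_rank H0 D F hF W hW
          omega
        have h6 := (lmono h5).trans (lmul _ _)
        linarith
    have h2' := (Nat.cast_le (α := ℝ)).2 h2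
    refine h2'.trans (h1.trans (mul_le_mul_of_nonneg_right ?_ (Nat.cast_nonneg _)))
    have h8 : (2 : ℝ) ^ (-((M.card : ℝ) / 6)) ≤ (2 : ℝ) ^ (-(j : ℝ)) := by
      apply Real.rpow_le_rpow_of_exponent_le (by norm_num)
      have : ((6 * j : ℕ) : ℝ) ≤ (M.card : ℝ) := by exact_mod_cast hMK.le
      push_cast at this
      linarith
    refine h8.trans ?_
    rw [Real.rpow_neg (by norm_num), Real.rpow_natCast]
    rw [one_div, inv_pow] at hj
    exact hj.le

/-- the conjectured bound passes from a graph to its random perturbations -/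
theorem transfer (ε A c : ℝ) (hε : 0 < ε) (hA : 0 ≤ A) (hc : 1 ≤ c) : ∃ A' : ℝ,
    ∀ (V : Type) [Fintype V] (H0 D : SimpleGraph V),
      Real.log (chi H0 : ℝ) ≤ A * (1 + Real.log (rk H0 : ℝ)) ^ c →
      (({F : SimpleGraph V | F ≤ D ∧ ¬ (Real.log (chi (symmDiff H0 F) : ℝ) ≤
          A' * (1 + Real.log (rk (symmDiff H0 F) : ℝ)) ^ c)}.ncard : ℕ) : ℝ) ≤
        ε * (({F : SimpleGraph V | F ≤ D}.ncard : ℕ) : ℝ) := by
  obtain ⟨C, hC, h⟩ := pert_bound ε hε
  refine ⟨A * (1 + C) ^ c + 1 + C, fun V _ H0 D hH => ?_⟩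
  refine le_trans ?_ (h V H0 D)
  apply Nat.cast_le.2
  apply Set.ncard_le_ncard _ (Set.toFinite _)
  rintro F ⟨hF, h1⟩
  refine ⟨hF, fun h2 => h1 ?_⟩
  obtain ⟨h3, h4⟩ := h2
  set x : ℝ := Real.log (rk (symmDiff H0 F) : ℝ) with hx
  have hx0 : 0 ≤ x := Real.log_natCast_nonneg _
  have hy0 : 0 ≤ Real.log (rk H0 : ℝ) := Real.log_natCast_nonneg _
  have hp1 : 1 ≤ (1 + x) ^ c := Real.one_le_rpow (by linarith) (by linarith)
  have hpx : 1 + x ≤ (1 + x) ^ c := by
    calc 1 + x = (1 + x) ^ (1 : ℝ) := (Real.rpow_one _).symm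
      _ ≤ (1 + x) ^ c := Real.rpow_le_rpow_of_exponent_le (by linarith) hc
  have h5 : (1 + Real.log (rk H0 : ℝ)) ^ c ≤ (1 + C) ^ c * (1 + x) ^ c := by
    rw [← Real.mul_rpow (by linarith) (by linarith)]
    apply Real.rpow_le_rpow (by linarith) _ (by linarith)
    nlinarith
  have h6 : Real.log (chi H0 : ℝ) ≤ A * (1 + C) ^ c * (1 + x) ^ c := by
    refine hH.trans ?_
    rw [mul_assoc]
    exact mul_le_mul_of_nonneg_left h5 hA
  have h7 : 0 ≤ A * (1 + C) ^ c * (1 + x) ^ c := by positivity
  have h8 : max (Real.log (chi H0 : ℝ)) x ≤ A * (1 + C) ^ c * (1 + x) ^ c + (1 + x) ^ c := by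
    apply max_le
    · linarith
    · linarith
  have h9 : C ≤ C * (1 + x) ^ c := by nlinarith
  calc Real.log (chi (symmDiff H0 F) : ℝ) ≤ max (Real.log (chi H0 : ℝ)) x + C := h3
    _ ≤ (A * (1 + C) ^ c + 1 + C) * (1 + x) ^ c := by linarith

end Pool.Agent.Y395.RK
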