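import Pool.Agent.Y395.RS.Basic

set_option autoImplicit false

/-! The rank of a random spanning subgraph, of a graph with random flips: anti-concentration. -/

namespace Pool.Agent.Y395.RK

open Finset Pool.Agent.Y395.RS

theorem rank_sub_le' {m : Type} [Fintype m] (A B : Matrix m m ℝ) :
    (A - B).rank ≤ A.rank + B.rank := by
  classical
  unfold Matrix.rank
  have h : LinearMap.range (Matrix.mulVecLin (A - B)) ≤
      LinearMap.range (Matrix.mulVecLin A) ⊔ LinearMap.range (Matrix.mulVecLin B) := by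
    rintro x ⟨v, rfl⟩
    rw [Matrix.mulVecLin_apply, Matrix.sub_mulVec, sub_eq_add_neg]
    apply Submodule.add_mem_sup
    · exact ⟨v, rfl⟩
    · exact ⟨-v, by rw [Matrix.mulVecLin_apply, Matrix.mulVec_neg]⟩
  exact (Submodule.finrank_mono h).trans
    (Submodule.finrank_add_le_finrank_add_finrank _ _)

section

variable {V : Type} [Fintype V]

open Classical in
/-- the adjacency matrix of `H0` with the pairs in `F` flipped -/
noncomputable def fl (H0 : SimpleGraph V) (F : Finset (Sym2 V)) : Matrix V V ℝ :=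
  fun x y => if (H0.Adj x y ↔ s(x, y) ∉ F) then 1 else 0

open Classical in
/-- flipping a set `T` of pairwise disjoint pairs changes the matrix by one of rank `2 |T|` -/
theorem rank_diff (H0 : SimpleGraph V) (F F' T : Finset (Sym2 V))
    (hT : ∀ e, e ∈ T ↔ ¬ (e ∈ F ↔ e ∈ F')) (hd : ∀ e ∈ T, ¬ e.IsDiag)
    (hM : ∀ e ∈ T, ∀ e' ∈ T, ∀ v : V, v ∈ e → v ∈ e' → e = e') :
    2 * T.card ≤ (fl H0 F - fl H0 F').rank := by
  let r : T × Bool → V := fun p => if p.2 then (Quot.out p.1.1).1 else (Quot.out p.1.1).2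
  let c : T × Bool → V := fun p => if p.2 then (Quot.out p.1.1).2 else (Quot.out p.1.1).1
  have hout : ∀ e : Sym2 V, s((Quot.out e).1, (Quot.out e).2) = e := fun e => Quot.out_eq e
  have hrm : ∀ p : T × Bool, r p ∈ p.1.1 := by
    rintro ⟨⟨e, he⟩, b⟩
    show (if b then (Quot.out e).1 else (Quot.out e).2) ∈ e
    have h1 : (Quot.out e).1 ∈ s((Quot.out e).1, (Quot.out e).2) := Sym2.mem_mk_left _ _
    have h2 : (Quot.out e).2 ∈ s((Quot.out e).1, (Quot.out e).2) := Sym2.mem_mk_right _ _
    rw [hout e] at h1 h2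
    cases b
    · exact h2
    · exact h1
  have hcm : ∀ p : T × Bool, c p ∈ p.1.1 := by
    rintro ⟨⟨e, he⟩, b⟩
    show (if b then (Quot.out e).2 else (Quot.out e).1) ∈ e
    have h1 : (Quot.out e).1 ∈ s((Quot.out e).1, (Quot.out e).2) := Sym2.mem_mk_left _ _
    have h2 : (Quot.out e).2 ∈ s((Quot.out e).1, (Quot.out e).2) := Sym2.mem_mk_right _ _
    rw [hout e] at h1 h2
    cases b
    · exact h1
    · exact h2
  have hrc : ∀ p : T × Bool, s(r p, c p) = p.1.1 := by
    rintro ⟨⟨e, he⟩, b⟩
    show s((if b then (Quot.out e).1 else (Quot.out e).2),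
      (if b then (Quot.out e).2 else (Quot.out e).1)) = e
    cases b
    · simp only [Bool.false_eq_true, if_false]
      rw [Sym2.eq_swap]
      exact hout e
    · simp only [if_true]
      exact hout e
  set A := fl H0 F - fl H0 F' with hA
  have hoff : ∀ x y : V, s(x, y) ∉ T → A x y = 0 := by
    intro x y h
    rw [hT, not_not] at h
    show fl H0 F x y - fl H0 F' x y = 0
    unfold fl
    simp only [h, sub_self]
  have hon : ∀ x y : V, s(x, y) ∈ T → A x y ≠ 0 := by
    intro x y h
    rw [hT] at h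
    show fl H0 F x y - fl H0 F' x y ≠ 0
    unfold fl
    by_cases h1 : s(x, y) ∈ F
    · have h2 : s(x, y) ∉ F' := fun h2 => h ⟨fun _ => h2, fun _ => h1⟩
      by_cases h3 : H0.Adj x y <;> simp [h1, h2, h3]
    · have h2 : s(x, y) ∈ F' := by
        by_contra h2
        exact h ⟨fun h' => absurd h' h1, fun h' => absurd h' h2⟩
      by_cases h3 : H0.Adj x y <;> simp [h1, h2, h3]
  have hsub : A.submatrix r c = Matrix.diagonal (fun p => A (r p) (c p)) := by
    ext p q
    rw [Matrix.submatrix_apply, Matrix.diagonal_apply]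
    by_cases hpq : p = q
    · subst hpq
      rw [if_pos rfl]
    · rw [if_neg hpq]
      apply hoff
      intro h
      apply hpq
      have e1 : s(r p, c q) = p.1.1 := hM _ h _ p.1.2 (r p) (Sym2.mem_mk_left _ _) (hrm p)
      have e2 : s(r p, c q) = q.1.1 := hM _ h _ q.1.2 (c q) (Sym2.mem_mk_right _ _) (hcm q)
      obtain ⟨⟨e, he⟩, b⟩ := p
      obtain ⟨⟨e', he'⟩, b'⟩ := q
      have e3 : e = e' := e1.symm.trans e2
      subst e3
      by_cases hb : b = b'
      · subst hb
        rfl
      · exfalso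
        apply hd e he
        have e4 : c (⟨e, he'⟩, b') = r (⟨e, he⟩, b) := by
          show (if b' then (Quot.out e).2 else (Quot.out e).1) =
            (if b then (Quot.out e).1 else (Quot.out e).2)
          cases b <;> cases b' <;> simp_all
        have e5 : s(r (⟨e, he⟩, b), c (⟨e, he'⟩, b')) = e := e1
        rw [e4] at e5
        rw [← e5]
        exact Sym2.mk_isDiag_iff.2 rfl
  have h1 := Matrix.rank_submatrix_le A r c
  rw [hsub, Matrix.rank_diagonal] at h1
  refine le_trans (le_of_eq ?_) h1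
  have h2 : Fintype.card {i : T × Bool // A (r i) (c i) ≠ 0} = Fintype.card (T × Bool) := by
    apply Fintype.card_congr
    exact Equiv.subtypeUnivEquiv (fun p => hon _ _ (by rw [hrc]; exact p.1.2))
  rw [h2, Fintype.card_prod, Fintype.card_coe, Fintype.card_bool, mul_comm]

end

/-- the number of small subsets -/
theorem ball {α : Type} (M : Finset α) :
    cnt M (fun B => 4 * B.card < M.card) ≤ (2 : ℝ) ^ (5 * (M.card : ℝ) / 6) := by
  classical
  set k := M.card with hk
  have h1 : cnt M (fun B => 4 * B.card < k) ≤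
      (3 : ℝ) ^ ((k : ℝ) / 4) * ∑ B ∈ M.powerset, (1 / 3 : ℝ) ^ B.card * 1 ^ (k - B.card) := by
    rw [cnt_eq, mul_sum]
    have e : ((M.powerset.filter (fun B => 4 * B.card < k)).card : ℝ) =
        ∑ B ∈ M.powerset.filter (fun B => 4 * B.card < k), (1 : ℝ) := by
      rw [sum_const, nsmul_eq_mul, mul_one]
    rw [e]
    calc ∑ B ∈ M.powerset.filter (fun B => 4 * B.card < k), (1 : ℝ)
        ≤ ∑ B ∈ M.powerset.filter (fun B => 4 * B.card < k),
          (3 : ℝ) ^ ((k : ℝ) / 4) * ((1 / 3 : ℝ) ^ B.card * 1 ^ (k - B.card)) := by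
          apply sum_le_sum
          intro B hB
          have hB' : 4 * B.card < k := (mem_filter.1 hB).2
          rw [one_pow, mul_one, one_div, inv_pow, ← Real.rpow_natCast, ← Real.rpow_neg (by norm_num),
            ← Real.rpow_add (by norm_num)]
          apply Real.one_le_rpow (by norm_num)
          have : (4 * (B.card : ℝ)) ≤ k := by exact_mod_cast hB'.le
          linarith
      _ ≤ _ := by
          apply sum_le_sum_of_subset_of_nonneg (filter_subset _ _)
          intro B _ _
          positivity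
  refine h1.trans ?_
  rw [Finset.sum_pow_mul_eq_add_pow]
  rw [← hk]
  have h2 : (1 / 3 + 1 : ℝ) ^ k = ((4 / 3 : ℝ)) ^ (k : ℝ) := by
    rw [Real.rpow_natCast]
    norm_num
  rw [h2]
  have h3 : (3 : ℝ) ^ ((k : ℝ) / 4) = ((3 : ℝ) ^ (1 / 4 : ℝ)) ^ (k : ℝ) := by
    rw [← Real.rpow_mul (by norm_num)]
    congr 1
    ring
  have h4 : (2 : ℝ) ^ (5 * (k : ℝ) / 6) = ((2 : ℝ) ^ (5 / 6 : ℝ)) ^ (k : ℝ) := by
    rw [← Real.rpow_mul (by norm_num)]
    congr 1
    ring
  rw [h3, h4, ← Real.mul_rpow (by positivity) (by norm_num)]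
  apply Real.rpow_le_rpow (by positivity) _ (Nat.cast_nonneg _)
  -- the numerical inequality
  have h5 : ((3 : ℝ) ^ (1 / 4 : ℝ) * (4 / 3)) ^ 12 ≤ ((2 : ℝ) ^ (5 / 6 : ℝ)) ^ 12 := by
    rw [mul_pow, ← Real.rpow_natCast, ← Real.rpow_mul (by norm_num), ← Real.rpow_natCast (_ ^ _),
      ← Real.rpow_mul (by norm_num)]
    norm_num
  exact le_of_pow_le_pow_left₀ (by norm_num) (by positivity) h5

open Classical in
/-- the rank of a graph with random flips -/
theorem rank_bound {V : Type} [Fintype V] (H0 : SimpleGraph V) (E M : Finset (Sym2 V))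
    (hME : M ⊆ E) (hd : ∀ e ∈ M, ¬ e.IsDiag)
    (hM : ∀ e ∈ M, ∀ e' ∈ M, ∀ v : V, v ∈ e → v ∈ e' → e = e') :
    cnt E (fun F => 4 * (fl H0 F).rank < M.card) ≤
      (2 : ℝ) ^ (-((M.card : ℝ) / 6)) * 2 ^ E.card := by
  apply cnt_cond E M hME
  intro F0 hF0
  have e0 : (2 : ℝ) ^ (-((M.card : ℝ) / 6)) * 2 ^ M.card = (2 : ℝ) ^ (5 * (M.card : ℝ) / 6) := by
    rw [← Real.rpow_natCast, ← Real.rpow_add (by norm_num)]
    congr 1
    ring
  rw [e0]
  by_cases hex : ∃ A1, A1 ⊆ M ∧ 4 * (fl H0 (F0 ∪ A1)).rank < M.card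
  · obtain ⟨A1, hA1, hr1⟩ := hex
    have key : ∀ A, A ⊆ M → 4 * (fl H0 (F0 ∪ A)).rank < M.card →
        4 * (symmDiff A A1).card < M.card := by
      intro A hA hr
      have h := rank_diff H0 (F0 ∪ A) (F0 ∪ A1) (symmDiff A A1) (by
          intro e
          rw [mem_symmDiff, mem_union, mem_union]
          have h0 : e ∈ F0 → e ∉ A ∧ e ∉ A1 := fun h =>
            ⟨fun h' => (mem_sdiff.1 (hF0 h)).2 (hA h'),
              fun h' => (mem_sdiff.1 (hF0 h)).2 (hA1 h')⟩
          tauto)
        (fun e he => hd e (by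
          rcases mem_symmDiff.1 he with h | h
          · exact hA h.1
          · exact hA1 h.1))
        (fun e he e' he' v hv hv' => hM e (by
          rcases mem_symmDiff.1 he with h | h
          · exact hA h.1
          · exact hA1 h.1) e' (by
          rcases mem_symmDiff.1 he' with h | h
          · exact hA h.1
          · exact hA1 h.1) v hv hv')
      have h2 := rank_sub_le' (fl H0 (F0 ∪ A)) (fl H0 (F0 ∪ A1))
      omega
    have h1 : cnt M (fun A => 4 * (fl H0 (F0 ∪ A)).rank < M.card) ≤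
        cnt M (fun A => 4 * (symmDiff A A1).card < M.card) := cnt_mono key
    have h2 : cnt M (fun A => 4 * (symmDiff A A1).card < M.card) =
        cnt M (fun B => 4 * B.card < M.card) := by
      rw [cnt_eq, cnt_eq]
      congr 1
      have hs : ∀ A, A ⊆ M → symmDiff A A1 ⊆ M := by
        intro A hA e he
        rcases mem_symmDiff.1 he with h | h
        · exact hA h.1
        · exact hA1 h.1
      apply card_bij' (i := fun A _ => symmDiff A A1) (j := fun A _ => symmDiff A A1)
      · intro A hA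
        rw [mem_filter, mem_powerset] at hA ⊢
        exact ⟨hs A hA.1, hA.2⟩
      · intro A hA
        rw [mem_filter, mem_powerset] at hA ⊢
        exact ⟨hs A hA.1, by rw [symmDiff_symmDiff_cancel_right]; exact hA.2⟩
      · intro A _
        exact symmDiff_symmDiff_cancel_right _ _
      · intro A _
        exact symmDiff_symmDiff_cancel_right _ _
    rw [h2] at h1
    exact h1.trans (ball M)
  · have : cnt M (fun A => 4 * (fl H0 (F0 ∪ A)).rank < M.card) ≤ cnt M (fun _ => False) :=
      cnt_mono fun A hA h => hex ⟨A, hA, h⟩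
    rw [cnt_false] at this
    exact this.trans (by positivity)

end Pool.Agent.Y395.RK
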